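import Pool.Agent.helper99.PLR.Spec

/-! Row plr:CLK (MP_d9e35a_co), after CLC of helper9 -/

set_option autoImplicit false
set_option linter.unusedVariables false

open scoped Classical

namespace Pool.Agent.PLR

open Finset
open Pool.Agent.helper65.HC (V IsEig IsTop lam)
open Pool.Agent.helper9.HQ (Fam Dn E N Le Eig lk)
open Pool.Agent.helper9.HX (Ef)
open Pool.Agent.helper9.HLR (cel Lc)

noncomputable section

theorem CLK_mem {d : ℕ} (S w : Finset (Fin d)) (U : Fam d) (y : Finset (Fin d)) :
    y ∈ Lc S w U ↔ Disjoint y S ∧ y ∪ w ∈ U := by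
  unfold Lc
  rw [Finset.mem_filter]
  exact ⟨fun h => h.2, fun h => ⟨Finset.mem_univ y, h⟩⟩

theorem CLK : CLK_stmt := by
  intro d k U S w hU hw
  have hdis : ∀ (y : Finset (Fin d)), Disjoint y S → (y ∪ w) \ S = y := by
    intro y hy
    ext i
    rw [mem_sdiff, mem_union]
    constructor
    · rintro ⟨h1 | h1, h2⟩
      · exact h1
      · exact absurd (hw h1) h2
    · intro h1
      exact ⟨Or.inl h1, fun h2 => (Finset.disjoint_left.1 hy) h1 h2⟩
  refine ⟨?_, ?_, ?_, ?_, ?_⟩
  · intro x hx y hyx
    rw [CLK_mem] at hx ⊢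
    exact ⟨Finset.disjoint_of_subset_left hyx hx.1, hU _ hx.2 _ (Finset.union_subset_union_left hyx)⟩
  · refine Finset.card_le_card_of_injOn (fun y => y ∪ w) ?_ ?_
    · intro y hy
      rw [Finset.mem_coe, CLK_mem] at hy
      exact hy.2
    · intro y hy z hz h
      rw [Finset.mem_coe, CLK_mem] at hy hz
      have h' : y ∪ w = z ∪ w := h
      rw [← hdis y hy.1, h', hdis z hz.1]
  · unfold lev upk
    refine Finset.card_le_card fun y hy => ?_
    rw [Finset.mem_filter, CLK_mem] at hy
    rw [Finset.mem_filter]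
    exact ⟨Finset.mem_univ y, hy.2, Finset.disjoint_of_subset_right hw hy.1.1, hy.1.2⟩
  · intro i hi
    unfold lev
    rw [Finset.card_eq_zero, Finset.filter_eq_empty_iff]
    intro y hy
    unfold lk at hy
    rw [Finset.mem_filter, CLK_mem, CLK_mem] at hy
    exact absurd hi ((Finset.disjoint_left.1 hy.2.2.1) (Finset.mem_insert_self i y))
  · intro i hi
    unfold lev upk
    refine Finset.card_le_card fun y hy => ?_
    rw [Finset.mem_filter] at hy
    obtain ⟨hy, hyk⟩ := hy
    unfold lk at hy
    rw [Finset.mem_filter, CLK_mem, CLK_mem] at hy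
    obtain ⟨⟨h1, h2⟩, h3, h4, h5⟩ := hy
    rw [Finset.mem_filter]
    refine ⟨Finset.mem_univ y, hyk, ?_, ?_⟩
    · rw [Finset.disjoint_insert_right]
      exact ⟨h3, Finset.disjoint_of_subset_right hw h1⟩
    · have h6 : y ∪ insert i w = insert i y ∪ w := by
        ext j
        simp only [Finset.mem_union, Finset.mem_insert]
        tauto
      rw [h6]
      exact h5

end

end Pool.Agent.PLR
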