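import Pool.Agent.helper99.PLR.Spec

/-! Row plr:CSZ (MP_d9e35a_co) -/

set_option autoImplicit false
set_option linter.unusedVariables false

open scoped Classical

namespace Pool.Agent.PLR

open Finset
open Pool.Agent.helper65.HC (V IsEig IsTop lam)
open Pool.Agent.helper9.HQ (Fam Dn E N Le Eig lk)
open Pool.Agent.helper9.HX (Ef)
open Pool.Agent.helper9.HLR (cel Lc)

noncomputable section

theorem CSZ_aux (hPRK : PRK_stmt) (k : ℕ) (kap : ℝ) (hk : 1 ≤ k) (hkap : 0 < kap) (d : ℕ) (hd : k ≤ d)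
    (K : ℝ) (U C : Fam d) (S : Finset (Fin d)) (hK : 1 ≤ K) (hKd : K ≤ kap / (3 * k) * d)
    (hU : (U.card : ℝ) ≤ K * (d.choose k : ℝ)) (hC : ∀ w ∈ C, w ⊆ S) (hC2 : C ⊆ core k kap U)
    (hS : (S.card : ℝ) ≤ 3 * K) : (C.card : ℝ) * (1 - 2 * kap) ≤ K := by
  have hd1 : 1 ≤ d := hk.trans hd
  have hdr : (0 : ℝ) < d := by exact_mod_cast hd1
  have hkr : (0 : ℝ) < k := by exact_mod_cast hk
  have hb : (0 : ℝ) < (d.choose k : ℝ) := by exact_mod_cast Nat.choose_pos hd
  have h1 := hPRK d k U C S hk hd1 hC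
  have h2 : (∑ w ∈ C, (upk k w U : ℝ)) ≤ (U.card : ℝ) + C.card * (S.card * ((d - 1).choose (k - 1) : ℝ)) := by
    exact_mod_cast h1
  have h3 : (C.card : ℝ) * ((1 - kap) * (d.choose k : ℝ)) ≤ ∑ w ∈ C, (upk k w U : ℝ) := by
    rw [← nsmul_eq_mul, ← Finset.sum_const]
    refine Finset.sum_le_sum fun w hw => ?_
    have h4 := hC2 hw
    unfold core at h4
    exact (Finset.mem_filter.1 h4).2
  have h5 : (d : ℝ) * ((d - 1).choose (k - 1) : ℝ) = (d.choose k : ℝ) * k := by
    have h6 := Nat.add_one_mul_choose_eq (d - 1) (k - 1)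
    rw [Nat.sub_add_cancel hd1, Nat.sub_add_cancel hk] at h6
    exact_mod_cast h6
  have h7 : ((d - 1).choose (k - 1) : ℝ) = (d.choose k : ℝ) * k / d := by
    rw [eq_div_iff hdr.ne', mul_comm]
    exact h5
  have h8 : (S.card : ℝ) * ((d - 1).choose (k - 1) : ℝ) ≤ kap * (d.choose k : ℝ) := by
    rw [h7]
    have h9 : (S.card : ℝ) ≤ kap * d / k := by
      calc (S.card : ℝ) ≤ 3 * K := hS
        _ ≤ 3 * (kap / (3 * k) * d) := by linarith
        _ = kap * d / k := by field_simp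
    calc (S.card : ℝ) * ((d.choose k : ℝ) * k / d) ≤ kap * d / k * ((d.choose k : ℝ) * k / d) :=
          mul_le_mul_of_nonneg_right h9 (by positivity)
      _ = kap * (d.choose k : ℝ) := by field_simp
  have hC0 : (0 : ℝ) ≤ C.card := Nat.cast_nonneg _
  have h9 : (C.card : ℝ) * (S.card * ((d - 1).choose (k - 1) : ℝ)) ≤ C.card * (kap * (d.choose k : ℝ)) :=
    mul_le_mul_of_nonneg_left h8 hC0
  have h10 : (C.card : ℝ) * (1 - 2 * kap) * (d.choose k : ℝ) ≤ K * (d.choose k : ℝ) := by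
    nlinarith
  exact le_of_mul_le_mul_right h10 hb

theorem CSZ (hUPA : UPA_stmt) (hPRK : PRK_stmt) : CSZ_stmt := by
  intro k kap hk hkap hkap2
  have hkr : (0 : ℝ) < k := by exact_mod_cast hk
  refine ⟨kap / (3 * k), k, by positivity, ?_⟩
  intro d hd K U hDn hK hKd hU
  have h12 : (0 : ℝ) < 1 - 2 * kap := by linarith
  have hup := hUPA d k U kap hDn
  have hK2 : K / (1 - 2 * kap) ≤ 2 * K := by
    rw [div_le_iff₀ h12]
    nlinarith
  have hS : ((Sc k kap U).card : ℝ) ≤ K / (1 - 2 * kap) := by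
    by_contra hcon
    rw [not_le] at hcon
    have hf : ⌊K / (1 - 2 * kap)⌋₊ < (Sc k kap U).card := by
      have h1 := Nat.floor_le (show (0 : ℝ) ≤ K / (1 - 2 * kap) by positivity)
      exact_mod_cast lt_of_le_of_lt h1 hcon
    obtain ⟨S', hS', hcard⟩ := Finset.exists_subset_card_eq (Nat.succ_le_of_lt hf)
    have hcr : (S'.card : ℝ) = (⌊K / (1 - 2 * kap)⌋₊ : ℝ) + 1 := by
      rw [hcard]
      push_cast
      ring
    have hgt : K / (1 - 2 * kap) < S'.card := by
      rw [hcr]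
      exact Nat.lt_floor_add_one _
    have hle : (S'.card : ℝ) ≤ 3 * K := by
      rw [hcr]
      have h1 := Nat.floor_le (show (0 : ℝ) ≤ K / (1 - 2 * kap) by positivity)
      linarith
    have hCc : (S'.image fun i => ({i} : Finset (Fin d))).card = S'.card :=
      Finset.card_image_of_injective _ Finset.singleton_injective
    have h2 := CSZ_aux hPRK k kap hk hkap d hd K U (S'.image fun i => ({i} : Finset (Fin d))) S' hK hKd hU
      (fun w hw => by
        obtain ⟨i, hi, rfl⟩ := Finset.mem_image.1 hw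
        exact Finset.singleton_subset_iff.2 hi)
      (fun w hw => by
        obtain ⟨i, hi, rfl⟩ := Finset.mem_image.1 hw
        have h3 := hS' hi
        unfold Sc at h3
        exact (Finset.mem_filter.1 h3).2) hle
    rw [hCc] at h2
    rw [div_lt_iff₀ h12] at hgt
    linarith
  refine ⟨hS, ?_⟩
  rw [le_div_iff₀ h12]
  exact CSZ_aux hPRK k kap hk hkap d hd K U (core k kap U) (Sc k kap U) hK hKd hU
    hup.2.2 (Finset.Subset.refl _) (by linarith)

end

end Pool.Agent.PLR
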