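import Pool.Agent.helper99.PLR.Spec

/-! Row plr:ZB (MP_d9e35a_co) -/

set_option autoImplicit false
set_option linter.unusedVariables false

open scoped Classical

namespace Pool.Agent.PLR

open Finset
open Pool.Agent.helper65.HC (V IsEig IsTop lam)
open Pool.Agent.helper9.HQ (Fam Dn E N Le Eig lk)
open Pool.Agent.helper9.HX (Ef)
open Pool.Agent.helper9.HLR (cel Lc)

noncomputable section

theorem ZB_mq_nonneg {d : ℕ} (U : Fam d) (f : Finset (Fin d) → ℝ) (w : Finset (Fin d)) :
    0 ≤ mq U f w := Finset.sum_nonneg fun _ _ => sq_nonneg _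

theorem ZB_mq_empty {d : ℕ} (U : Fam d) (l : ℝ) (f : Finset (Fin d) → ℝ) (h : Eig U l f) :
    mq U f ∅ = 1 := by
  rw [← h.nrm]
  unfold mq N
  refine Finset.sum_congr ?_ fun _ _ => rfl
  ext x
  simp

theorem ZB_mq_notMem {d : ℕ} (U : Fam d) (f : Finset (Fin d) → ℝ) (w : Finset (Fin d)) (hU : Dn U)
    (hw : w ∉ U) : mq U f w = 0 := by
  unfold mq
  refine Finset.sum_eq_zero fun x hx => ?_
  rw [Finset.mem_filter] at hx
  exact absurd (hU x hx.1 w hx.2) hw

/-- singletons -/
theorem ZB_one (hLCW : LCW_stmt) {d : ℕ} (U : Fam d) (l K : ℝ) (f : Finset (Fin d) → ℝ) (hU : Dn U)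
    (hE : Eig U l f) (hK : 1 ≤ K) (hL : ∀ i, Le (lk i U) (l - √K / 4)) (v : Finset (Fin d))
    (hv : v.card = 1) : √(mq U f v) ≤ 4 / √K := by
  obtain ⟨i, rfl⟩ := Finset.card_eq_one.1 hv
  have h1 := hLCW d U l (l - √K / 4) f {i} hU hE (Finset.singleton_nonempty i)
    (Or.inl ⟨i, Finset.mem_singleton_self i, hL i⟩)
  rw [Finset.sum_singleton, Finset.erase_singleton, ZB_mq_empty U l f hE, Real.sqrt_one] at h1
  have h2 : 0 < √K := Real.sqrt_pos.2 (by linarith)
  rw [le_div_iff₀ h2]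
  nlinarith

theorem ZB_sum (hLCW : LCW_stmt) {d : ℕ} (U : Fam d) (l K : ℝ) (f : Finset (Fin d) → ℝ) (hU : Dn U)
    (hE : Eig U l f) (hK : 1 ≤ K) (hL : ∀ i, Le (lk i U) (l - √K / 4)) (w : Finset (Fin d))
    (hw : w.card = 2) : ∑ i ∈ w, √(mq U f (w.erase i)) ≤ 8 / √K := by
  have h1 : ∑ i ∈ w, √(mq U f (w.erase i)) ≤ ∑ _i ∈ w, 4 / √K := by
    refine Finset.sum_le_sum fun i hi => ZB_one hLCW U l K f hU hE hK hL _ ?_
    rw [Finset.card_erase_of_mem hi, hw]
  rw [Finset.sum_const, hw, nsmul_eq_mul] at h1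
  refine h1.trans_eq ?_
  push_cast
  ring

theorem ZB (hHZP : HZP_stmt) (hCLA : CLA_stmt) (hUPA : UPA_stmt) (hCLK : CLK_stmt) (hLCW : LCW_stmt)
    (hCSZ : CSZ_stmt) : ZB_stmt := by
  intro k kap hk hkap hkap4
  obtain ⟨c, thA, hc, hc2, hthA, dA, hA⟩ := hCLA k hk kap hkap (by linarith)
  obtain ⟨thC, dC, hthC, hC⟩ := hCSZ k kap hk hkap hkap4
  refine ⟨2048 + 256 / c ^ 2, min thA thC, max (max dA dC) 1, by positivity, lt_min hthA hthC, ?_⟩
  intro d hd K U l f hU hK hKd hcard hE hl hL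
  have hdA : dA ≤ d := (le_max_left _ _).trans ((le_max_left _ _).trans hd)
  have hdC : dC ≤ d := (le_max_right _ _).trans ((le_max_left _ _).trans hd)
  have hd1 : 1 ≤ d := (le_max_right _ _).trans hd
  have hdr : (0 : ℝ) < d := by exact_mod_cast hd1
  have hK0 : 0 < K := by linarith
  have hKA : K ≤ thA * d := hKd.trans (mul_le_mul_of_nonneg_right (min_le_left _ _) hdr.le)
  have hKC : K ≤ thC * d := hKd.trans (mul_le_mul_of_nonneg_right (min_le_right _ _) hdr.le)
  obtain ⟨hS, hcore⟩ := hC d hdC K U hU hK hKC hcard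
  have h12 : (0 : ℝ) < 1 - 2 * kap := by linarith
  have hK2 : K / (1 - 2 * kap) ≤ 2 * K := by
    rw [div_le_iff₀ h12]
    nlinarith
  have hS2 : ((Sc k kap U).card : ℝ) ≤ 2 * K := hS.trans hK2
  have hcore2 : ((core k kap U).card : ℝ) ≤ 2 * K := hcore.trans hK2
  have hsK : 0 < √K := Real.sqrt_pos.2 hK0
  have hsd : 0 < √(d : ℝ) := Real.sqrt_pos.2 hdr
  have hsKK : √K * √K = K := Real.mul_self_sqrt hK0.le
  have hsdd : √(d : ℝ) * √(d : ℝ) = d := Real.mul_self_sqrt hdr.le
  -- the bound for one pair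
  have hpair : ∀ w ∈ (Sc k kap U).powersetCard 2, mq U f w ≤
      (if w ∈ core k kap U then 1024 / K ^ 2 else 0) + 64 / (c ^ 2 * K * d) := by
    intro w hw
    rw [Finset.mem_powersetCard] at hw
    obtain ⟨hwS, hw2⟩ := hw
    have hsum := ZB_sum hLCW U l K f hU hE hK hL w hw2
    have hwne : w.Nonempty := Finset.card_pos.1 (by omega)
    have hy0 : 0 ≤ √(mq U f w) := Real.sqrt_nonneg _
    have hyy : √(mq U f w) * √(mq U f w) = mq U f w := Real.mul_self_sqrt (ZB_mq_nonneg U f w)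
    by_cases hcw : w ∈ core k kap U
    · rw [if_pos hcw]
      obtain ⟨i, hi⟩ := hwne
      have h1 := hLCW d U l (l - √K / 4) f w hU hE ⟨i, hi⟩ (Or.inl ⟨i, hi, hL i⟩)
      have h2 : √(mq U f w) ≤ 32 / K := by
        rw [le_div_iff₀ hK0]
        have h3 : √K / 4 * √(mq U f w) * √K ≤ 8 := by
          rw [le_div_iff₀ hsK] at hsum
          have h4 : (l - (l - √K / 4)) * √(mq U f w) * √K ≤
              (∑ i ∈ w, √(mq U f (w.erase i))) * √K := mul_le_mul_of_nonneg_right h1 hsK.le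
          rw [show l - (l - √K / 4) = √K / 4 by ring] at h4
          exact h4.trans hsum
        nlinarith
      have h3 : mq U f w ≤ 1024 / K ^ 2 := by
        rw [← hyy]
        calc √(mq U f w) * √(mq U f w) ≤ 32 / K * (32 / K) := mul_le_mul h2 h2 hy0 (by positivity)
          _ = 1024 / K ^ 2 := by
            field_simp
            norm_num
      have h4 : (0 : ℝ) ≤ 64 / (c ^ 2 * K * d) := by positivity
      linarith
    · rw [if_neg hcw, zero_add]
      by_cases hwU : w ∈ U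
      · have hup : (upk k w U : ℝ) ≤ (1 - kap) * (d.choose k : ℝ) := by
          by_contra hcon
          rw [not_le] at hcon
          apply hcw
          unfold core
          rw [Finset.mem_filter]
          exact ⟨hwU, hcon.le⟩
        obtain ⟨q1, q2, q3, -, -⟩ := hCLK d k U w w hU (Finset.Subset.refl w)
        have hch : (d.choose k : ℝ) ≤ (d : ℝ) ^ k := by
          exact_mod_cast Nat.choose_le_pow d k
        have hcd : ((Lc w w U).card : ℝ) ≤ thA * (d : ℝ) ^ (k + 1) := by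
          calc ((Lc w w U).card : ℝ) ≤ (U.card : ℝ) := by exact_mod_cast q2
            _ ≤ K * (d.choose k : ℝ) := hcard
            _ ≤ thA * d * (d : ℝ) ^ k := mul_le_mul hKA hch (by positivity) (by positivity)
            _ = thA * (d : ℝ) ^ (k + 1) := by ring
        have hlev : (lev k (Lc w w U) : ℝ) ≤ (1 - kap) * (d.choose k : ℝ) :=
          le_trans (by exact_mod_cast q3) hup
        have hLe := hA d hdA (Lc w w U) q1 hcd hlev
        have h1 := hLCW d U l ((hz (k + 1) - c) * √d) f w hU hE hwne (Or.inr hLe)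
        have h2 : c * √d * √(mq U f w) ≤ 8 / √K := by
          refine le_trans ?_ (h1.trans hsum)
          refine mul_le_mul_of_nonneg_right ?_ hy0
          nlinarith
        have h3 : √(mq U f w) ≤ 8 / (c * √d * √K) := by
          rw [le_div_iff₀ (by positivity)]
          rw [le_div_iff₀ hsK] at h2
          nlinarith
        rw [← hyy]
        calc √(mq U f w) * √(mq U f w) ≤ 8 / (c * √d * √K) * (8 / (c * √d * √K)) :=
              mul_le_mul h3 h3 hy0 (by positivity)
          _ = 64 / (c ^ 2 * (√K * √K) * (√d * √d)) := by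
            rw [div_mul_div_comm]
            congr 1
            · norm_num
            · ring
          _ = 64 / (c ^ 2 * K * d) := by rw [hsKK, hsdd]
      · rw [ZB_mq_notMem U f w hU hwU]
        positivity
  refine (Finset.sum_le_sum hpair).trans ?_
  rw [Finset.sum_add_distrib, Finset.sum_const, nsmul_eq_mul, Finset.card_powersetCard,
    ← Finset.sum_filter, Finset.sum_const, nsmul_eq_mul]
  have h1 : ((((Sc k kap U).powersetCard 2).filter fun w => w ∈ core k kap U).card : ℝ) ≤ 2 * K := by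
    refine le_trans ?_ hcore2
    have : (((Sc k kap U).powersetCard 2).filter fun w => w ∈ core k kap U).card ≤
        (core k kap U).card := Finset.card_le_card fun w hw => (Finset.mem_filter.1 hw).2
    exact_mod_cast this
  have h2 : (((Sc k kap U).card.choose 2 : ℕ) : ℝ) ≤ 4 * K ^ 2 := by
    have h3 : (((Sc k kap U).card.choose 2 : ℕ) : ℝ) ≤ ((Sc k kap U).card : ℝ) ^ 2 := by
      exact_mod_cast Nat.choose_le_pow _ 2
    have h4 : ((Sc k kap U).card : ℝ) ^ 2 ≤ (2 * K) ^ 2 :=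
      pow_le_pow_left₀ (Nat.cast_nonneg _) hS2 2
    nlinarith
  have h3 : ((((Sc k kap U).powersetCard 2).filter fun w => w ∈ core k kap U).card : ℝ) *
      (1024 / K ^ 2) ≤ 2 * K * (1024 / K ^ 2) := mul_le_mul_of_nonneg_right h1 (by positivity)
  have h4 : (((Sc k kap U).card.choose 2 : ℕ) : ℝ) * (64 / (c ^ 2 * K * d)) ≤
      4 * K ^ 2 * (64 / (c ^ 2 * K * d)) := mul_le_mul_of_nonneg_right h2 (by positivity)
  have h5 : 2 * K * (1024 / K ^ 2) = 2048 * (1 / K) := by
    field_simp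
    norm_num
  have h6 : 4 * K ^ 2 * (64 / (c ^ 2 * K * d)) = 256 / c ^ 2 * (K / d) := by
    field_simp
    norm_num
  have h7 : (0 : ℝ) ≤ 256 / c ^ 2 * (1 / K) := by positivity
  have h8 : (0 : ℝ) ≤ 2048 * (K / d) := by positivity
  calc _ ≤ 2 * K * (1024 / K ^ 2) + 4 * K ^ 2 * (64 / (c ^ 2 * K * d)) := add_le_add h3 h4
    _ = 2048 * (1 / K) + 256 / c ^ 2 * (K / d) := by rw [h5, h6]
    _ ≤ (2048 + 256 / c ^ 2) * (1 / K + K / d) := by nlinarith

end

end Pool.Agent.PLR
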